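import Pool.Agent.W434.BW.StmB

set_option autoImplicit false
set_option maxHeartbeats 4000000

/-! Project BW, AFD: consistency of the restricted system. -/

namespace Pool.Agent.W82.BW

open Pool.Agent.W434.BW

section Walk

variable {V St A : Type} (S : Sys V St A)

/-- `v` is a walk along `l` -/
def W : List St → (ℕ → A) → Prop
  | [], _ => True
  | s :: l, v => S.E s (v 0) (v 1) ∧ W l (fun k => v (k + 1))

/-- the vertex after `k` steps -/
def nd : List St → V → ℕ → V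
  | [], x, _ => x
  | _ :: _, x, 0 => x
  | s :: l, _, k + 1 => nd l (S.tgt s) k

theorem nd_zero (l : List St) (x : V) : nd S l x 0 = x := by
  cases l <;> rfl

theorem nd_length (l : List St) (x y : V) (h : S.IsPath l x y) : nd S l x l.length = y := by
  induction l generalizing x with
  | nil => exact h
  | cons s l ih => exact ih (S.tgt s) h.2

theorem W_congr (l : List St) (v v' : ℕ → A) (h : ∀ k, k ≤ l.length → v k = v' k) (hv : W S l v) :
    W S l v' := by
  induction l generalizing v v' with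
  | nil => trivial
  | cons s l ih =>
    refine ⟨?_, ih _ _ (fun k hk => h (k + 1) (by simpa using hk)) hv.2⟩
    rw [← h 0 (by simp), ← h 1 (by simp)]
    exact hv.1

theorem W_dom (hS : S.Ok) (l : List St) (x y : V) (v : ℕ → A) (hp : S.IsPath l x y) (hv : W S l v)
    (h0 : v 0 ∈ S.P x) : ∀ k, k ≤ l.length → v k ∈ S.P (nd S l x k) := by
  induction l generalizing x v with
  | nil =>
    intro k hk
    have : k = 0 := by simpa using hk
    subst this
    exact h0
  | cons s l ih =>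
    intro k hk
    cases k with
    | zero => exact h0
    | succ k =>
      exact ih (S.tgt s) (fun k => v (k + 1)) hp.2 hv.2 (hS.dom s _ _ hv.1).2 k (by simpa using hk)

theorem W_restrict (D : V → Set A) (l : List St) (x y : V) (v : ℕ → A) (hp : S.IsPath l x y)
    (hv : W S l v) (hD : ∀ k, k ≤ l.length → v k ∈ D (nd S l x k)) :
    ({ S with
        E := fun s x y => S.E s x y ∧ x ∈ D (S.src s) ∧ y ∈ D (S.tgt s)
        P := D } : Sys V St A).Rl l (v 0) (v l.length) := by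
  induction l generalizing x v with
  | nil => exact rfl
  | cons s l ih =>
    refine ⟨v 1, ⟨hv.1, ?_, ?_⟩, ?_⟩
    · have := hD 0 (by simp)
      rw [nd_zero, ← hp.1] at this
      exact this
    · have := hD 1 (by simp)
      change v 1 ∈ D (nd S l (S.tgt s) 0) at this
      rw [nd_zero] at this
      exact this
    · exact ih (S.tgt s) (fun k => v (k + 1)) hp.2 hv.2 (fun k hk => hD (k + 1) (by simpa using hk))

theorem walk1 (l : List St) (a b : A) (h : S.Rl l a b) :
    ∃ v : ℕ → A, W S l v ∧ v 0 = a ∧ v l.length = b := by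
  induction l generalizing a with
  | nil =>
    have : a = b := h
    exact ⟨fun _ => a, trivial, rfl, this⟩
  | cons s l ih =>
    obtain ⟨c, hc, hcb⟩ := h
    obtain ⟨v, hv, h0, hb⟩ := ih c hcb
    refine ⟨fun k => Nat.casesOn k a (fun k => v k), ⟨?_, hv⟩, rfl, hb⟩
    change S.E s a (v 0)
    rw [h0]; exact hc

theorem walk2 (l1 l2 : List St) (a c b : A) (h1 : S.Rl l1 a c) (h2 : S.Rl l2 c b) :
    ∃ v : ℕ → A, W S (l1 ++ l2) v ∧ v 0 = a ∧ v l1.length = c ∧ v (l1.length + l2.length) = b := by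
  induction l1 generalizing a with
  | nil =>
    have : a = c := h1
    subst this
    obtain ⟨v, hv, h0, hb⟩ := walk1 S l2 a b h2
    exact ⟨v, hv, h0, h0, by simpa using hb⟩
  | cons s l ih =>
    obtain ⟨d, hd, hdc⟩ := h1
    obtain ⟨v, hv, h0, hc, hb⟩ := ih d hdc
    refine ⟨fun k => Nat.casesOn k a (fun k => v k), ⟨?_, hv⟩, rfl, hc, ?_⟩
    · change S.E s a (v 0)
      rw [h0]; exact hd
    · rw [show (s :: l).length + l2.length = (l.length + l2.length) + 1 by simp; omega]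
      exact hb

theorem walk3 (w1 μ w3 : List St) (a c c' b : A) (h1 : S.Rl w1 a c) (h2 : S.Rl μ c c')
    (h3 : S.Rl w3 c' b) :
    ∃ v : ℕ → A, W S (w1 ++ (μ ++ w3)) v ∧ v 0 = a ∧ v w1.length = c ∧
      v (w1.length + μ.length) = c' ∧ v (w1.length + μ.length + w3.length) = b := by
  induction w1 generalizing a with
  | nil =>
    have : a = c := h1
    subst this
    obtain ⟨v, hv, h0, hc, hb⟩ := walk2 S μ w3 a c' b h2 h3
    exact ⟨v, hv, h0, h0, by simpa using hc, by simpa using hb⟩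
  | cons s l ih =>
    obtain ⟨d, hd, hdc⟩ := h1
    obtain ⟨v, hv, h0, hc, hc', hb⟩ := ih d hdc
    refine ⟨fun k => Nat.casesOn k a (fun k => v k), ⟨?_, hv⟩, rfl, hc, ?_, ?_⟩
    · change S.E s a (v 0)
      rw [h0]; exact hd
    · rw [show (s :: l).length + μ.length = (l.length + μ.length) + 1 by simp; omega]
      exact hc'
    · rw [show (s :: l).length + μ.length + w3.length = (l.length + μ.length + w3.length) + 1 by
        simp; omega]
      exact hb

theorem split3 (l : List St) (x y : V) (hp : S.IsPath l x y) (k k' : ℕ) (hk : k ≤ k')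
    (hk' : k' ≤ l.length) :
    ∃ w1 μ w3, l = w1 ++ (μ ++ w3) ∧ w1.length = k ∧ w1.length + μ.length = k' ∧
      S.IsPath w1 x (nd S l x k) ∧ S.IsPath μ (nd S l x k) (nd S l x k') ∧
      S.IsPath w3 (nd S l x k') y := by
  induction l generalizing x k k' with
  | nil =>
    have h1 : k' = 0 := by simpa using hk'
    have h2 : k = 0 := by omega
    subst h1; subst h2
    exact ⟨[], [], [], rfl, rfl, rfl, rfl, rfl, hp⟩
  | cons s l ih =>
    cases k' with
    | zero =>
      have h2 : k = 0 := by omega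
      subst h2
      exact ⟨[], [], s :: l, rfl, rfl, rfl, rfl, rfl, hp⟩
    | succ m' =>
      have hm' : m' ≤ l.length := by simpa using hk'
      cases k with
      | zero =>
        obtain ⟨w1, μ, w3, e, e1, e2, p1, p2, p3⟩ := ih (S.tgt s) hp.2 0 m' (by omega) hm'
        have hw : w1 = [] := List.length_eq_zero_iff.mp e1
        subst hw
        refine ⟨[], s :: μ, w3, ?_, rfl, ?_, rfl, ⟨hp.1, ?_⟩, p3⟩
        · rw [e]; rfl
        · simpa using e2
        · rw [nd_zero] at p2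
          exact p2
      | succ m =>
        obtain ⟨w1, μ, w3, e, e1, e2, p1, p2, p3⟩ := ih (S.tgt s) hp.2 m m' (by omega) hm'
        refine ⟨s :: w1, μ, w3, ?_, ?_, ?_, ⟨hp.1, p1⟩, p2, p3⟩
        · rw [e]; rfl
        · simp [e1]
        · simp only [List.length_cons]; omega

end Walk

section Alg

variable {Ω : Type} {ar : Ω → ℕ} {V St A : Type} (S : Sys V St A)

theorem W_rel (a : Alg ar A) (hR : ∀ s, Rel a a (S.E s)) (l : List St) (ω : Ω)
    (v : Fin (ar ω) → ℕ → A) (hv : ∀ i, W S l (v i)) : W S l (fun k => a ω (fun i => v i k)) := by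
  induction l generalizing v with
  | nil => trivial
  | cons s l ih =>
    exact ⟨hR s ω _ _ (fun i => (hv i).1), ih (fun i k => v i (k + 1)) (fun i => (hv i).2)⟩

theorem rl_rel (a : Alg ar A) (hR : ∀ s, Rel a a (S.E s)) (l : List St) : Rel a a (S.Rl l) := by
  induction l with
  | nil =>
    intro ω x y h
    have : x = y := funext h
    rw [this]
    exact rfl
  | cons s l ih =>
    intro ω x y h
    choose c h1 h2 using h
    exact ⟨a ω c, hR s ω _ _ h1, ih ω _ _ h2⟩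

end Alg

theorem afd (hM : S_afmain) (hO : S_long) (hQ : S_mp) : S_afd := by
  classical
  intro Ω ar u V St A Q _ _ C hC s hE hAF π ρ hπ hρ
  obtain ⟨N1, hN1⟩ := hO V St A C.S hC.ok hC.qc s π ρ hπ hρ
  obtain ⟨N2, hN2⟩ := hC.qc s π ρ hπ hρ
  refine ⟨max N1 N2, fun j hj x1 y1 hxy hx1 hy1 => ?_⟩
  have hj1 : N1 ≤ j := le_trans (le_max_left _ _) hj
  have hj2 : N2 ≤ j := le_trans (le_max_right _ _) hj
  set S := C.S with hS
  set w := π ++ rep j (ρ ++ π) with hw
  set n := w.length with hn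
  have hpw : S.IsPath w (S.src s) (S.tgt s) := by
    rw [hw, Sys.isPath_append]
    refine ⟨_, hπ, Sys.isPath_rep S _ _ ?_ j⟩
    rw [Sys.isPath_append]
    exact ⟨_, hρ, hπ⟩
  -- hats
  set hat : (Fin (n + 1) → A) → ℕ → A := fun v k => v ⟨min k n, by omega⟩ with hhat
  have hat_le : ∀ (v : Fin (n + 1) → A) (k : ℕ) (hk : k ≤ n), hat v k = v ⟨k, by omega⟩ := by
    intro v k hk
    simp only [hhat]
    congr 1
    exact Fin.ext (by simp [hk])
  set X : Set (Fin (n + 1) → A) := {v | W S w (hat v) ∧ S.E s (hat v 0) (hat v n)} with hX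
  have hXsub : Sub (piA C.a (Fin (n + 1))) X := by
    intro ω v hv
    refine ⟨W_rel S C.a hC.relE w ω (fun i => hat (v i)) (fun i => (hv i).1), ?_⟩
    exact hC.relE s ω _ _ (fun i => (hv i).2)
  -- from walks to elements of X
  have mkX : ∀ v : ℕ → A, W S w v → S.E s (v 0) (v n) →
      ∃ ξ : X, ∀ k : Fin (n + 1), (ξ : Fin (n + 1) → A) k = v k := by
    intro v hv hvs
    refine ⟨⟨fun k => v k, ?_, ?_⟩, fun k => rfl⟩
    · refine W_congr S w v _ (fun k hk => ?_) hv
      exact (hat_le (fun k : Fin (n + 1) => v k) k hk).symm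
    · have e0 := hat_le (fun k : Fin (n + 1) => v k) 0 (by omega)
      have en := hat_le (fun k : Fin (n + 1) => v k) n le_rfl
      have : S.E s (hat (fun k : Fin (n + 1) => v k) 0) (hat (fun k : Fin (n + 1) => v k) n) := by
        rw [e0, en]
        exact hvs
      exact this
  -- the pair property
  have pair1 : ∀ k k' : Fin (n + 1), k ≤ k' → ∃ μ, S.IsPath μ (nd S w (S.src s) k) (nd S w (S.src s) k') ∧
      ∀ c ∈ S.P (nd S w (S.src s) k), ∀ c', S.Rl μ c c' →
        ∃ ξ : X, (ξ : Fin (n + 1) → A) k = c ∧ (ξ : Fin (n + 1) → A) k' = c' := by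
    intro k k' hkk
    obtain ⟨w1, μ, w3, e, e1, e2, p1, p2, p3⟩ := split3 S w _ _ hpw k k' hkk (by omega)
    have hlen : n = w1.length + μ.length + w3.length := by
      rw [hn, e]; simp [Nat.add_assoc]
    have fin : ∀ a c c' b, S.Rl w1 a c → S.Rl μ c c' → S.Rl w3 c' b → S.E s a b →
        ∃ ξ : X, (ξ : Fin (n + 1) → A) k = c ∧ (ξ : Fin (n + 1) → A) k' = c' := by
      intro a c c' b h1 h2 h3 hab
      obtain ⟨v, hv, v0, vk, vk', vn⟩ := walk3 S w1 μ w3 a c c' b h1 h2 h3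
      rw [← e] at hv
      obtain ⟨ξ, hξ⟩ := mkX v hv (by rw [v0, hlen, vn]; exact hab)
      refine ⟨ξ, ?_, ?_⟩
      · rw [hξ, ← e1, vk]
      · rw [hξ, ← e2, vk']
    rcases hN1 j hj1 w1 μ w3 _ _ (by rw [← hw]; exact e) p1 p2 p3 with h | h
    · refine ⟨μ, p2, fun c hc c' hcc => ?_⟩
      obtain ⟨a, b, h1, h2, h3⟩ := h c hc c' hcc
      exact fin a c c' b h1 hcc h3 h2
    · have hpath : S.IsPath (S.rv w1 ++ ([s] ++ S.rv w3)) (nd S w (S.src s) k)
          (nd S w (S.src s) k') := by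
        rw [Sys.isPath_append]
        refine ⟨S.src s, Sys.isPath_rv S hC.ok _ _ _ p1, ?_⟩
        exact ⟨rfl, Sys.isPath_rv S hC.ok _ _ _ p3⟩
      refine ⟨S.rv w1 ++ ([s] ++ S.rv w3), hpath, fun c hc c' hcc => ?_⟩
      have hc' := Sys.rl_dom S hC.ok _ _ _ hpath c c' hc hcc
      rw [Sys.rl_append] at hcc
      obtain ⟨a, h1, b, h2, h3⟩ := hcc
      rw [Sys.rl_rv S hC.ok] at h1
      change S.Rl (S.rv w3) b c' at h3
      rw [Sys.rl_rv S hC.ok] at h3
      exact fin a c c' b h1 (h c hc c' hc' ⟨a, b, h1, h2, h3⟩) h3 h2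
  have pair : ∀ k k' : Fin (n + 1), ∃ μ, S.IsPath μ (nd S w (S.src s) k) (nd S w (S.src s) k') ∧
      ∀ c ∈ S.P (nd S w (S.src s) k), ∀ c', S.Rl μ c c' →
        ∃ ξ : X, (ξ : Fin (n + 1) → A) k = c ∧ (ξ : Fin (n + 1) → A) k' = c' := by
    intro k k'
    rcases le_total k k' with hkk | hkk
    · exact pair1 k k' hkk
    · obtain ⟨μ, hμ, hμ'⟩ := pair1 k' k hkk
      have hpath := Sys.isPath_rv S hC.ok _ _ _ hμ
      refine ⟨S.rv μ, hpath, fun c hc c' hcc => ?_⟩
      have hc' := Sys.rl_dom S hC.ok _ _ _ hpath c c' hc hcc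
      rw [Sys.rl_rv S hC.ok] at hcc
      obtain ⟨ξ, h1, h2⟩ := hμ' c' hc' c hcc
      exact ⟨ξ, h2, h1⟩
  -- surjectivity of the coordinates
  have surj : ∀ k : Fin (n + 1), ∀ c ∈ S.P (nd S w (S.src s) k),
      ∃ ξ : X, (ξ : Fin (n + 1) → A) k = c := by
    intro k c hc
    obtain ⟨μ, hμ, hμ'⟩ := pair k k
    obtain ⟨b, _, hb⟩ := Sys.rl_ext S hC.ok _ _ _ hμ c hc
    obtain ⟨ξ, h1, _⟩ := hμ' c hc b hb
    exact ⟨ξ, h1⟩
  -- values in the domains
  have memP : ∀ (k : Fin (n + 1)) (ξ : X), (ξ : Fin (n + 1) → A) k ∈ S.P (nd S w (S.src s) k) := by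
    intro k ξ
    have h1 := W_dom S hC.ok w _ _ _ hpw ξ.2.1 (hC.ok.dom s _ _ ξ.2.2).1 k (by omega)
    rw [hat_le _ k (by omega)] at h1
    exact h1
  -- the map e
  set Ph : Set (A × A) := {p : A × A | S.E s p.1 p.2} with hPh
  set k0 : Fin (n + 1) := ⟨0, by omega⟩ with hk0
  set kn : Fin (n + 1) := ⟨n, by omega⟩ with hkn
  have he_mem : ∀ ξ : X, S.E s ((ξ : Fin (n + 1) → A) k0) ((ξ : Fin (n + 1) → A) kn) := by
    intro ξ
    have := ξ.2.2
    rw [hat_le _ 0 (by omega), hat_le _ n le_rfl] at this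
    exact this
  set e : X → Ph := fun ξ => ⟨((ξ : Fin (n + 1) → A) k0, (ξ : Fin (n + 1) → A) kn), he_mem ξ⟩ with he
  have he_sur : Function.Surjective e := by
    rintro ⟨⟨a, b⟩, hab⟩
    obtain ⟨v, hv, v0, vn⟩ := walk1 S w a b (hN2 j hj2 a b hab)
    obtain ⟨ξ, hξ⟩ := mkX v hv (by rw [v0, vn]; exact hab)
    refine ⟨ξ, Subtype.ext (Prod.ext ?_ ?_)⟩
    · change (ξ : Fin (n + 1) → A) k0 = a
      rw [hξ, ← v0]
    · change (ξ : Fin (n + 1) → A) kn = b
      rw [hξ, ← vn]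
  have nd0 : nd S w (S.src s) k0 = S.src s := nd_zero S w _
  have ndn : nd S w (S.src s) kn = S.tgt s := nd_length S w _ _ hpw
  -- the last hypothesis
  have last : ∀ (k : Fin (n + 1)) (τ : List St), C.Rigid τ (nd S w (S.src s) k) → ∀ h : Ph → Q,
      (∀ ξ : X, ∀ a ∈ S.P C.x0, S.Rl τ a ((ξ : Fin (n + 1) → A) k) → C.h0 a = h (e ξ)) →
      h ⟨(x1, y1), hxy⟩ = C.B := by
    intro k τ hτ h hh
    obtain ⟨hτp, hτr⟩ := hτ
    have hτrv := Sys.isPath_rv S hC.ok _ _ _ hτp
    -- preimages in `x0`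
    have pre : ∀ c ∈ S.P (nd S w (S.src s) k), ∃ a ∈ S.P C.x0, S.Rl τ a c := by
      intro c hc
      obtain ⟨a, ha, ha'⟩ := Sys.rl_ext S hC.ok _ _ _ hτrv c hc
      exact ⟨a, ha, (Sys.rl_rv S hC.ok _ _ _).1 ha'⟩
    -- `h` is a homomorphism
    have hhom : ∀ (ω : Ω) (p : Fin (ar ω) → Ph),
        h (subA (prodA C.a C.a) Ph hE ω p) = C.q ω (fun i => h (p i)) := by
      intro ω p
      choose ξ hξ using fun i => he_sur (p i)
      choose a ha ha' using fun i => pre _ (memP k (ξ i))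
      have h1 : ∀ i, h (p i) = C.h0 (a i) := by
        intro i
        rw [hh (ξ i) (a i) (ha i) (ha' i), hξ i]
      have h2 : subA (prodA C.a C.a) Ph hE ω p = e (subA (piA C.a (Fin (n + 1))) X hXsub ω ξ) := by
        have : p = fun i => e (ξ i) := funext fun i => (hξ i).symm
        rw [this]
        rfl
      rw [h2, ← hh (subA (piA C.a (Fin (n + 1))) X hXsub ω ξ) (C.a ω a) (hC.subP C.x0 ω a ha)
        (rl_rel S C.a hC.relE τ ω a (fun i => (ξ i : Fin (n + 1) → A) k) ha'),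
        hC.hom ω a ha]
      congr 1
      funext i
      exact (h1 i).symm
    have hsur : ∀ z : Q, ∃ p : Ph, h p = z := by
      intro z
      obtain ⟨c, hc, hcz⟩ := hC.sur z
      obtain ⟨c', hc', hcc⟩ := Sys.rl_ext S hC.ok _ _ _ hτp c hc
      obtain ⟨ξ, hξ⟩ := surj k c' hc'
      refine ⟨e ξ, ?_⟩
      rw [← hh ξ c hc (by rw [hξ]; exact hcc), hcz]
    obtain ⟨q0, _, _⟩ := hC.two
    have hmp := hQ Ω ar u (S.P (S.src s)) (S.P (S.tgt s)) Q
      (subA C.a (S.P (S.src s)) (hC.subP _)) (subA C.a (S.P (S.tgt s)) (hC.subP _)) C.q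
      (fun a b => S.E s a b)
      (fun a b => if hab : S.E s a b then h ⟨((a : A), (b : A)), hab⟩ else q0)
      (nice_sub _ _ hC.nice) (nice_sub _ _ hC.nice) hC.niceq (hC.afP _) (hC.afP _) hC.afq
      hC.simple hC.nl
      (fun ω x y hxy => hC.relE s ω _ _ hxy)
      ⟨fun x => by
        obtain ⟨b, hb⟩ := hC.ok.ext s x x.2
        exact ⟨⟨b, (hC.ok.dom s _ _ hb).2⟩, hb⟩,
       fun y => by
        obtain ⟨b, hb⟩ := hC.ok.ext (S.rev s) y (by rw [hC.ok.src_rev]; exact y.2)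
        rw [hC.ok.rev_E] at hb
        exact ⟨⟨b, (hC.ok.dom s _ _ hb).1⟩, hb⟩⟩
      (by
        intro ω x y hR
        have h1 : S.E s ((subA C.a (S.P (S.src s)) (hC.subP _) ω x : S.P (S.src s)) : A)
            ((subA C.a (S.P (S.tgt s)) (hC.subP _) ω y : S.P (S.tgt s)) : A) :=
          hC.relE s ω _ _ hR
        rw [dif_pos h1]
        have h2 := hhom ω (fun i => ⟨((x i : A), (y i : A)), hR i⟩)
        refine Eq.trans ?_ (h2.trans ?_)
        · rfl
        · congr 1
          funext i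
          rw [dif_pos (hR i)])
      (by
        intro z
        obtain ⟨⟨⟨a, b⟩, hab⟩, hz⟩ := hsur z
        refine ⟨⟨a, (hC.ok.dom s _ _ hab).1⟩, ⟨b, (hC.ok.dom s _ _ hab).2⟩, hab, ?_⟩
        rw [dif_pos (show S.E s a b from hab)]
        exact hz)
    -- general step
    have step : ∀ (kk : Fin (n + 1)) (x' : A), x' ∈ C.P' (nd S w (S.src s) kk) →
        ∀ g : A → Q, (∀ ξ : X, h (e ξ) = g ((ξ : Fin (n + 1) → A) kk)) → g x' = C.B := by
      intro kk x' hx' g hg
      obtain ⟨μ, hμ, hμ'⟩ := pair kk k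
      have hμrv := Sys.isPath_rv S hC.ok _ _ _ hμ
      have hkey : ∀ a ∈ S.P C.x0, ∀ c, S.Rl (τ ++ S.rv μ) a c → C.h0 a = g c := by
        intro a ha c hac
        rw [Sys.rl_append] at hac
        obtain ⟨c1, h1, h2⟩ := hac
        have hc1 := Sys.rl_dom S hC.ok _ _ _ hτp a c1 ha h1
        have hc := Sys.rl_dom S hC.ok _ _ _ hμrv c1 c hc1 h2
        rw [Sys.rl_rv S hC.ok] at h2
        obtain ⟨ξ, h3, h4⟩ := hμ' c hc c1 h2
        rw [hh ξ a ha (by rw [h4]; exact h1), hg ξ, h3]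
      have hrig : C.Rigid (τ ++ S.rv μ) (nd S w (S.src s) kk) := by
        refine ⟨?_, ?_⟩
        · change S.IsPath _ _ _
          rw [Sys.isPath_append]
          exact ⟨_, hτp, hμrv⟩
        · intro a ha a' ha' c h1 h2
          rw [hkey a ha c h1, hkey a' ha' c h2]
      obtain ⟨c1, hc1, h1⟩ := Sys.rl_ext S hC.ok _ _ _ hμ x' hx'.1
      obtain ⟨a, ha, h2⟩ := pre c1 hc1
      have h3 : S.Rl (τ ++ S.rv μ) a x' := by
        rw [Sys.rl_append]
        exact ⟨c1, h2, (Sys.rl_rv S hC.ok _ _ _).2 h1⟩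
      rw [← hkey a ha x' h3]
      exact hx'.2 _ hrig a ha h3
    rcases hmp with ⟨g, hg⟩ | ⟨g, hg⟩
    · have h1 := hg ⟨x1, (hC.ok.dom s _ _ hxy).1⟩ ⟨y1, (hC.ok.dom s _ _ hxy).2⟩ hxy
      rw [dif_pos (show S.E s x1 y1 from hxy)] at h1
      have h2 := step k0 x1 (by rw [nd0]; exact hx1)
        (fun a => if ha : a ∈ S.P (S.src s) then g ⟨a, ha⟩ else q0) (by
          intro ξ
          have h3 := he_mem ξ
          have h4 := hg ⟨_, (hC.ok.dom s _ _ h3).1⟩ ⟨_, (hC.ok.dom s _ _ h3).2⟩ h3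
          rw [dif_pos (show S.E s _ _ from h3)] at h4
          rw [dif_pos (hC.ok.dom s _ _ h3).1, ← h4])
      rw [dif_pos (hC.ok.dom s _ _ hxy).1] at h2
      rw [h1, h2]
    · have h1 := hg ⟨x1, (hC.ok.dom s _ _ hxy).1⟩ ⟨y1, (hC.ok.dom s _ _ hxy).2⟩ hxy
      rw [dif_pos (show S.E s x1 y1 from hxy)] at h1
      have h2 := step kn y1 (by rw [ndn]; exact hy1)
        (fun a => if ha : a ∈ S.P (S.tgt s) then g ⟨a, ha⟩ else q0) (by
          intro ξ
          have h3 := he_mem ξ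
          have h4 := hg ⟨_, (hC.ok.dom s _ _ h3).1⟩ ⟨_, (hC.ok.dom s _ _ h3).2⟩ h3
          rw [dif_pos (show S.E s _ _ from h3)] at h4
          rw [dif_pos (hC.ok.dom s _ _ h3).2, ← h4])
      rw [dif_pos (hC.ok.dom s _ _ hxy).2] at h2
      rw [h1, h2]
  -- apply the main lemma
  obtain ⟨ξ, hξe, hξ⟩ := hM Ω ar u V St A Q C hC X Ph (subA (piA C.a (Fin (n + 1))) X hXsub)
    (subA (prodA C.a C.a) Ph hE) e ⟨(x1, y1), hxy⟩ (Fin (n + 1))
    (fun k ξ => (ξ : Fin (n + 1) → A) k) (fun k => nd S w (S.src s) k)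
    (nice_sub _ _ (nice_pi _ hC.nice)) (nice_sub _ _ (nice_prod hC.nice hC.nice)) hAF
    (fun ω x => rfl) he_sur (fun k ω x => rfl) memP surj pair last
  have hξ0 : hat ξ 0 = x1 := by
    rw [hat_le _ 0 (by omega)]
    have := congrArg (fun p : Ph => (p : A × A).1) hξe
    exact this
  have hξn : hat ξ n = y1 := by
    rw [hat_le _ n le_rfl]
    have := congrArg (fun p : Ph => (p : A × A).2) hξe
    exact this
  have hfin := W_restrict S C.P' w _ _ (hat ξ) hpw ξ.2.1 (fun k hk => by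
    rw [hat_le _ k hk]
    exact hξ ⟨k, by omega⟩)
  rw [hξ0, ← hn, hξn] at hfin
  exact hfin

end Pool.Agent.W82.BW
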